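import Pool.Agent.Helper12.TS.St
import Pool.Agent.Helper36.NK.M_KCA
import Pool.Agent.Helper86.NK.M_PTR
import Pool.Agent.Helper51.AJ.Basic

/-!
# Module M3S of project TS: three components, one strong
-/

set_option autoImplicit false

namespace Pool.Agent.Helper7.TS

open Pool.Agent.Helper12.TS
open Pool.Agent.Helper51.AJ (IsMinor Planar Apex ExMinor Con Tch con_union con_singleton tch_mono
  tch_symm)
open Pool.Agent.Helper12.NK (rst Kc add)

private theorem kca : Pool.Agent.Helper12.NK.StKCA :=
  Pool.Agent.Helper36.NK.hKCA Pool.Agent.Helper86.NK.hPTR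

open Classical in
theorem hM3S : StQUO → StCMP → StLNK → StM3S := by
  intro hQ hC hL V _ G S Ca Cb Cc hM hK hS hCa hCb hCc hab hbc hac hstg s hs
  obtain ⟨_, hdis, _, htch, _⟩ := hC V G S
  have dab : Disjoint Ca Cb := hdis _ _ hCa hCb hab
  have dbc : Disjoint Cb Cc := hdis _ _ hCb hCc hbc
  have dac : Disjoint Ca Cc := hdis _ _ hCa hCc hac
  have daS : Disjoint Ca S := hCa.1
  have dbS : Disjoint Cb S := hCb.1
  have dcS : Disjoint Cc S := hCc.1
  have tc := htch hK hS Cc hCc
  have tb := htch hK hS Cb hCb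
  have hScc : ∀ t ∈ S, t ∉ Cc := fun t ht hc => Set.disjoint_left.1 dcS hc ht
  set ρ : V → V := fun x => if x ∈ Cc then s else x with hρ
  have ρc : ∀ x, x ∈ Cc → ρ x = s := fun x hx => by simp [hρ, hx]
  have ρn : ∀ x, x ∉ Cc → ρ x = x := fun x hx => by simp [hρ, hx]
  have hfib : ∀ x ∈ (Set.univ : Set V), Con G {z | z ∈ (Set.univ : Set V) ∧ ρ z = ρ x} := by
    intro x _
    by_cases hx : ρ x = s
    · have e : {z | z ∈ (Set.univ : Set V) ∧ ρ z = ρ x} = {s} ∪ Cc := by
        ext z
        rw [hx]
        constructor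
        · rintro ⟨_, hz⟩
          by_cases hzc : z ∈ Cc
          · exact Or.inr hzc
          · rw [ρn z hzc] at hz
            exact Or.inl hz
        · rintro (hz | hz)
          · have hz' : z = s := hz
            rw [hz']
            exact ⟨trivial, ρn s (hScc s hs)⟩
          · exact ⟨trivial, ρc z hz⟩
      rw [e]
      exact con_union (con_singleton G s) hCc.2.1 (tc s hs)
    · have hxc : x ∉ Cc := fun h => hx (ρc x h)
      have e : {z | z ∈ (Set.univ : Set V) ∧ ρ z = ρ x} = {x} := by
        ext z
        rw [ρn x hxc] at hx ⊢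
        constructor
        · rintro ⟨_, hz⟩
          by_cases hzc : z ∈ Cc
          · rw [ρc z hzc] at hz
            exact absurd hz.symm hx
          · rw [ρn z hzc] at hz
            exact hz
        · intro hz
          have hz' : z = x := hz
          rw [hz']
          exact ⟨trivial, ρn x hxc⟩
      rw [e]
      exact con_singleton G x
  obtain ⟨s', hs', c, hc, hadj⟩ := tc s hs
  have hs'' : s' = s := hs'
  subst hs''
  obtain ⟨v, hv⟩ := hM.2 G Set.univ ρ le_rfl hfib
    ⟨s', c, hadj, fun h => h.2.2.2 (by rw [ρc c hc, ρn s' (hScc s' hs)])⟩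
  set H : SimpleGraph V := quo G Set.univ ρ with hH
  obtain ⟨_, _, q3, q4, _⟩ := hQ V G Set.univ ρ
  obtain ⟨_, _, _, k4, _, _, _, _⟩ := kca V H {v}ᶜ
  obtain ⟨_, _, _, _, _, kmono, _, _⟩ := kca V G Set.univ
  -- edges from the centre
  have hst : ∀ t ∈ S, t ≠ s' → H.Adj s' t := by
    intro t ht hne
    obtain ⟨t', ht', c', hc', hadj'⟩ := tc t ht
    have ht'' : t' = t := ht'
    subst ht''
    exact ⟨hne.symm, c', trivial, t', trivial, ρc c' hc', ρn t' (hScc t' ht), hadj'.symm⟩
  -- restriction
  have hle : ∀ X : Set V, Disjoint X Cc → v ∉ X → rst G X ≤ rst H {v}ᶜ := by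
    intro X hX hvX a b hab'
    have h1 : H.Adj a b := q3 X (Set.subset_univ _)
      (fun x hx => ρn x (fun h => Set.disjoint_left.1 hX hx h)) hab'
    refine ⟨h1, ?_, ?_⟩
    · intro h
      have : a = v := h
      exact hvX (this ▸ hab'.2.1)
    · intro h
      have : b = v := h
      exact hvX (this ▸ hab'.2.2)
  have dSc : ∀ X : Set V, X ⊆ S → Disjoint X Cc := fun X hX => (dcS.symm).mono_left hX
  -- v is in Ca
  have hva : v ∈ Ca := by
    by_contra hva
    by_cases hvs : v = s'
    · obtain ⟨t, u, htu⟩ : ∃ t u, S = {s', t, u} ∧ s' ≠ t ∧ s' ≠ u ∧ t ≠ u := by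
        obtain ⟨x, y, z, hxy, hxz, hyz, hSe⟩ := Set.ncard_eq_three.1 hS
        rw [hSe] at hs
        rcases hs with h | h | h
        · exact ⟨y, z, by rw [hSe, h], h ▸ hxy, h ▸ hxz, hyz⟩
        · refine ⟨x, z, ?_, h ▸ hxy.symm, h ▸ hyz, hxz⟩
          rw [hSe, h]
          ext w; simp; tauto
        · have h' : s' = z := h
          refine ⟨x, y, ?_, h' ▸ hxz.symm, h' ▸ hyz.symm, hxy⟩
          rw [hSe, h']
          ext w; simp; tauto
      obtain ⟨hSe, h1, h2, h3⟩ := htu
      have htS : t ∈ S := by rw [hSe]; simp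
      have huS : u ∈ S := by rw [hSe]; simp
      have hSd : S \ {s'} = {t, u} := by
        rw [hSe]
        ext w
        simp only [Set.mem_diff, Set.mem_insert_iff, Set.mem_singleton_iff]
        constructor
        · rintro ⟨h | h | h, hn⟩
          · exact absurd h hn
          · exact Or.inl h
          · exact Or.inr h
        · rintro (h | h)
          · exact ⟨Or.inr (Or.inl h), fun e => h1 (e.symm.trans h)⟩
          · exact ⟨Or.inr (Or.inr h), fun e => h2 (e.symm.trans h)⟩
      have hvb : v ∉ Cb := by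
        rw [hvs]; intro h; exact Set.disjoint_left.1 dbS h hs
      have hconb : Con (rst H {v}ᶜ) Cb := by
        refine (k4 Cb ?_).1 (q4 Cb (Set.subset_univ _) ?_ hCb.2.1)
        · intro x hx h
          have : x = v := h
          exact hvb (this ▸ hx)
        · intro x hx
          exact ρn x (fun h => Set.disjoint_left.1 dbc hx h)
      have htchb : ∀ w ∈ S, w ≠ s' → Tch (rst H {v}ᶜ) {w} Cb := by
        intro w hw hws
        obtain ⟨w', hw', b, hb, hadjb⟩ := tb w hw
        have hw'' : w' = w := hw'
        subst hw''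
        refine ⟨w', rfl, b, hb, hle ({w'} ∪ Cb) ?_ ?_ ⟨hadjb, Or.inl rfl, Or.inr hb⟩⟩
        · exact Disjoint.sup_left (dSc {w'} (by simpa using hw)) dbc
        · rintro (h | h)
          · have : v = w' := h
            exact hws (this.symm.trans hvs)
          · exact hvb h
      have hX : rst G (Ca ∪ {t, u}) ≤ rst H {v}ᶜ := by
        refine hle _ ?_ ?_
        · refine Disjoint.sup_left dac (dSc _ ?_)
          rw [← hSd]; exact Set.diff_subset
        · rintro (h | h | h)
          · exact hva h
          · exact h1 (hvs.symm.trans h)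
          · exact h2 (hvs.symm.trans h)
      have hdisQ : Disjoint Cb (Ca ∪ {t, u}) := by
        refine Disjoint.sup_right dab.symm (dbS.mono_right ?_)
        rw [← hSd]; exact Set.diff_subset
      have hpl := hL V G (rst H {v}ᶜ) Ca Cb t u hX hdisQ
        (Or.inr ⟨Cb, le_rfl, hconb, htchb t htS h1.symm, htchb u huS h2.symm⟩) hv
      have hnot := hstg s' hs
      unfold Stg at hnot
      rw [hSd] at hnot
      exact hnot hpl
    · obtain ⟨t, u, htu⟩ : ∃ t u, S = {s', t, u} ∧ s' ≠ t ∧ s' ≠ u ∧ t ≠ u ∧ v ≠ u := by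
        obtain ⟨x, y, z, hxy, hxz, hyz, hSe⟩ := Set.ncard_eq_three.1 hS
        obtain ⟨t, u, h0, h1, h2, h3⟩ : ∃ t u, S = {s', t, u} ∧ s' ≠ t ∧ s' ≠ u ∧ t ≠ u := by
          rw [hSe] at hs
          rcases hs with h | h | h
          · exact ⟨y, z, by rw [hSe, h], h ▸ hxy, h ▸ hxz, hyz⟩
          · refine ⟨x, z, ?_, h ▸ hxy.symm, h ▸ hyz, hxz⟩
            rw [hSe, h]
            ext w; simp; tauto
          · have h' : s' = z := h
            refine ⟨x, y, ?_, h' ▸ hxz.symm, h' ▸ hyz.symm, hxy⟩
            rw [hSe, h']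
            ext w; simp; tauto
        by_cases hvu : v = u
        · refine ⟨u, t, ?_, h2, h1, h3.symm, fun e => h3 (e.symm.trans hvu)⟩
          rw [h0]
          ext w; simp; tauto
        · exact ⟨t, u, h0, h1, h2, h3, hvu⟩
      obtain ⟨hSe, h1, h2, h3, hvu⟩ := htu
      have htS : t ∈ S := by rw [hSe]; simp
      have huS : u ∈ S := by rw [hSe]; simp
      have hSd : S \ {t} = {s', u} := by
        rw [hSe]
        ext w
        simp only [Set.mem_diff, Set.mem_insert_iff, Set.mem_singleton_iff]
        constructor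
        · rintro ⟨h | h | h, hn⟩
          · exact Or.inl h
          · exact absurd h hn
          · exact Or.inr h
        · rintro (h | h)
          · exact ⟨Or.inl h, fun e => h1 (h.symm.trans e)⟩
          · exact ⟨Or.inr (Or.inr h), fun e => h3 (e.symm.trans h)⟩
      have hX : rst G (Ca ∪ {s', u}) ≤ rst H {v}ᶜ := by
        refine hle _ ?_ ?_
        · refine Disjoint.sup_left dac (dSc _ ?_)
          rw [← hSd]; exact Set.diff_subset
        · rintro (h | h | h)
          · exact hva h
          · exact hvs h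
          · exact hvu h
      have hlk : (rst H {v}ᶜ).Adj s' u := by
        refine ⟨hst u huS h2.symm, ?_, ?_⟩
        · intro h
          exact hvs (show s' = v from h).symm
        · intro h
          exact hvu (show u = v from h).symm
      have hpl := hL V G (rst H {v}ᶜ) Ca ∅ s' u hX (Set.empty_disjoint _) (Or.inl hlk) hv
      have hnot := hstg t htS
      unfold Stg at hnot
      rw [hSd] at hnot
      exact hnot hpl
  -- conclusion
  have hvS : v ∉ S := fun h => Set.disjoint_left.1 daS hva h
  have hvb : v ∉ Cb := fun h => Set.disjoint_left.1 dab hva h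
  refine kmono _ (rst H {v}ᶜ) (sup_le ?_ ?_) hv
  · refine hle _ (Disjoint.sup_left dbc (dSc S le_rfl)) ?_
    rintro (h | h)
    · exact hvb h
    · exact hvS h
  · intro a b hab'
    obtain ⟨hne, h | h⟩ := hab'
    · obtain ⟨ha, hb⟩ := h
      refine ⟨?_, ?_, ?_⟩
      · rw [ha]; exact hst b hb (by rw [← ha]; exact hne.symm)
      · intro e
        have : a = v := e
        exact hvS (this ▸ ha ▸ hs)
      · intro e
        have : b = v := e
        exact hvS (this ▸ hb)
    · obtain ⟨hb, ha⟩ := h
      refine ⟨?_, ?_, ?_⟩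
      · rw [hb]; exact (hst a ha (by rw [← hb]; exact hne)).symm
      · intro e
        have : a = v := e
        exact hvS (this ▸ ha)
      · intro e
        have : b = v := e
        exact hvS (this ▸ hb ▸ hs)

end Pool.Agent.Helper7.TS
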